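import Pool.Agent.W2helper18.RX.Stm

set_option autoImplicit false

/-!
# Piece D of project RX: the second moment (adapted from `Pool.Agent.H197R2.PG.second_moment`)
-/

open Finset Pool.Agent.H197R2.PG Pool.Agent.W2helper18.RX

namespace Pool.Agent.W2helper73.RX

lemma cnt_le' {Q : Finset ℕ} {x : ℕ} (hQ : ∀ q ∈ Q, q.Prime ∧ q ≤ x) (a b : ℕ) (hab : b < a) :
    ∑ q ∈ Q, #(Q.filter (fun q' => b + q' = a + q)) ≤
      #((Ioc 0 (0 + x)).filter (fun n => n.Prime ∧ (n + (a - b)).Prime)) := by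
  classical
  have h1 : ∀ q ∈ Q, #(Q.filter (fun q' => b + q' = a + q)) ≤
      if (q + (a - b)).Prime then 1 else 0 := by
    intro q _
    split_ifs with h
    · apply Finset.card_le_one.mpr
      intro u hu v hv
      have h2 := (mem_filter.mp hu).2
      have h3 := (mem_filter.mp hv).2
      omega
    · rw [Nat.le_zero, Finset.card_eq_zero, Finset.filter_eq_empty_iff]
      intro q' hq' h4
      apply h
      have h5 : q + (a - b) = q' := by omega
      rw [h5]
      exact (hQ q' hq').1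
  refine (Finset.sum_le_sum h1).trans ?_
  rw [← Finset.card_filter]
  apply Finset.card_le_card
  intro q hq
  rw [mem_filter] at hq
  have h6 := hQ q hq.1
  rw [mem_filter, mem_Ioc]
  exact ⟨⟨h6.1.pos, by omega⟩, h6.1, hq.2⟩

lemma cnt_swap' (Q : Finset ℕ) (a b : ℕ) :
    ∑ q ∈ Q, #(Q.filter (fun q' => b + q' = a + q)) =
      ∑ q ∈ Q, #(Q.filter (fun q' => a + q' = b + q)) := by
  classical
  simp only [Finset.card_filter]
  rw [Finset.sum_comm]
  apply Finset.sum_congr rfl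
  intro q _
  apply Finset.sum_congr rfl
  intro q' _
  simp only [eq_comm]

lemma cnt_self' (Q : Finset ℕ) (a : ℕ) :
    ∑ q ∈ Q, #(Q.filter (fun q' => a + q' = a + q)) ≤ #Q := by
  classical
  rw [Finset.card_eq_sum_ones]
  apply Finset.sum_le_sum
  intro q _
  apply Finset.card_le_one.mpr
  intro u hu v hv
  have h2 := (mem_filter.mp hu).2
  have h3 := (mem_filter.mp hv).2
  omega

lemma sh_add (x : ℕ) : sh x + x = 2 ^ x := by
  have h := (Nat.lt_two_pow_self (n := x)).le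
  unfold sh
  omega

lemma sh_lt_of_lt (a k : ℕ) (ha : 1 ≤ a) : sh a < sh (a + (k + 1)) := by
  induction k with
  | zero =>
    have h1 := sh_add a
    have h2 := sh_add (a + 1)
    have h3 : 2 ^ (a + 1) = 2 * 2 ^ a := by rw [pow_succ]; ring
    have h4 : 2 ^ 1 ≤ 2 ^ a := Nat.pow_le_pow_right (by norm_num) ha
    have e : a + (0 + 1) = a + 1 := by ring
    rw [e]
    omega
  | succ k ih =>
    have h1 := sh_add (a + (k + 1))
    have h2 := sh_add (a + (k + 1) + 1)
    have h3 : 2 ^ (a + (k + 1) + 1) = 2 * 2 ^ (a + (k + 1)) := by rw [pow_succ]; ring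
    have h4 : 2 ^ 1 ≤ 2 ^ (a + (k + 1)) := Nat.pow_le_pow_right (by norm_num) (by omega)
    have e : a + (k + 1 + 1) = a + (k + 1) + 1 := by ring
    rw [e]
    omega

lemma sh_ne {a b : ℕ} (ha : 1 ≤ a) (hb : 1 ≤ b) (hab : a ≠ b) : sh a ≠ sh b := by
  rcases lt_or_gt_of_ne hab with h | h
  · obtain ⟨k, hk⟩ := Nat.exists_eq_add_of_lt h
    have := sh_lt_of_lt a k ha
    rw [← add_assoc, ← hk] at this
    exact this.ne
  · obtain ⟨k, hk⟩ := Nat.exists_eq_add_of_lt h
    have := sh_lt_of_lt b k hb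
    rw [← add_assoc, ← hk] at this
    exact this.ne'

lemma sh_le {L x : ℕ} (hx : x ≤ L) : sh x ≤ 2 ^ L := by
  have h1 := sh_add x
  have h2 : 2 ^ x ≤ 2 ^ L := Nat.pow_le_pow_right (by norm_num) hx
  omega

theorem d : P_D := by
  classical
  obtain ⟨C, hC, u0, hps⟩ := pair_sieve_sharp
  refine ⟨3 / 2 * C, by linarith, u0, ?_⟩
  intro L X hX hL
  set S : Finset ℕ := Icc 1 L with hS
  have hcardS : #S = L := by rw [hS, Nat.card_Icc]; omega
  set Q := QL L X with hQ
  have hQp : ∀ q ∈ Q, q.Prime ∧ q ≤ X := by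
    intro q hq
    rw [hQ] at hq
    unfold QL at hq
    rw [mem_filter, mem_Ioc] at hq
    exact ⟨hq.2, hq.1.2⟩
  have hQl : ∀ q ∈ Q, 2 * 2 ^ L < q := by
    intro q hq
    rw [hQ] at hq
    unfold QL at hq
    rw [mem_filter, mem_Ioc] at hq
    have h3 : 2 ^ (L + 1) = 2 * 2 ^ L := by rw [pow_succ]; ring
    omega
  set Pairs := S ×ˢ Q with hPairs
  set f : ℕ × ℕ → ℕ := fun z => z.2 - sh z.1 with hf
  set I := Pairs.image f with hI
  set r : ℕ → ℕ := fun m => #(Pairs.filter (fun z => f z = m)) with hr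
  have hcardP : #Pairs = ∑ m ∈ I, r m := Finset.card_eq_sum_card_image f Pairs
  have hcardP' : (#Pairs : ℝ) = (L : ℝ) * #Q := by
    rw [hPairs, Finset.card_product, hcardS]
    push_cast
    rfl
  have hCS : (#Pairs : ℝ) ^ 2 ≤ #I * ∑ m ∈ I, (r m : ℝ) ^ 2 := by
    rw [hcardP]
    push_cast
    exact sq_sum_le_card_mul_sum_sq
  -- the second moment
  have hmom : ∑ m ∈ I, (r m : ℝ) ^ 2 ≤ (L : ℝ) * #Q +
      3 / 2 * C * (∑ z ∈ S.offDiag, gg (Nat.dist (sh z.1) (sh z.2))) * X / Real.log X ^ 2 := by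
    have e1 : ∑ m ∈ I, (r m) ^ 2 = ∑ z ∈ Pairs, r (f z) := by
      rw [Finset.sum_comp r f]
      apply Finset.sum_congr rfl
      intro m _
      rw [smul_eq_mul, sq]
    have e2 : ∑ z ∈ Pairs, r (f z) = ∑ a ∈ S, ∑ b ∈ S,
        ∑ q ∈ Q, #(Q.filter (fun q' => sh a + q' = sh b + q)) := by
      rw [hPairs, Finset.sum_product]
      apply Finset.sum_congr rfl
      intro a ha
      rw [Finset.sum_comm]
      apply Finset.sum_congr rfl
      intro q hq
      simp only [hr, hf, Finset.card_filter, hPairs]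
      rw [Finset.sum_product]
      apply Finset.sum_congr rfl
      intro b hb
      apply Finset.sum_congr rfl
      intro q' hq'
      have h1 := hQl q hq
      have h2 := hQl q' hq'
      have h3 : sh a ≤ 2 ^ L := sh_le (mem_Icc.mp ha).2
      have h4 : sh b ≤ 2 ^ L := sh_le (mem_Icc.mp hb).2
      have h5 : (q' - sh b = q - sh a) ↔ (sh a + q' = sh b + q) := by
        constructor
        · intro h; omega
        · intro h; omega
      simp only [h5]
    have e3 : ∑ a ∈ S, ∑ b ∈ S, ∑ q ∈ Q, #(Q.filter (fun q' => sh a + q' = sh b + q)) =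
        ∑ z ∈ S ×ˢ S, ∑ q ∈ Q, #(Q.filter (fun q' => sh z.1 + q' = sh z.2 + q)) := by
      rw [Finset.sum_product]
    have e4 : ∑ z ∈ S ×ˢ S, ∑ q ∈ Q, #(Q.filter (fun q' => sh z.1 + q' = sh z.2 + q)) =
        ∑ z ∈ S.diag, ∑ q ∈ Q, #(Q.filter (fun q' => sh z.1 + q' = sh z.2 + q)) +
        ∑ z ∈ S.offDiag, ∑ q ∈ Q, #(Q.filter (fun q' => sh z.1 + q' = sh z.2 + q)) := by
      rw [← Finset.diag_union_offDiag, Finset.sum_union (Finset.disjoint_diag_offDiag S)]
    have e5 : ∑ z ∈ S.diag, ∑ q ∈ Q, #(Q.filter (fun q' => sh z.1 + q' = sh z.2 + q)) ≤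
        L * #Q := by
      have e51 : #S.diag = L := by rw [Finset.diag_card, hcardS]
      rw [← e51, ← smul_eq_mul, ← Finset.sum_const]
      apply Finset.sum_le_sum
      intro z hz
      rw [Finset.mem_diag] at hz
      rw [← hz.2]
      exact cnt_self' Q (sh z.1)
    have e6 : ∀ z ∈ S.offDiag,
        ((∑ q ∈ Q, #(Q.filter (fun q' => sh z.1 + q' = sh z.2 + q)) : ℕ) : ℝ) ≤
        3 / 2 * C * gg (Nat.dist (sh z.1) (sh z.2)) * X / Real.log X ^ 2 := by
      intro z hz
      rw [mem_offDiag] at hz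
      have hz1 := mem_Icc.mp hz.1
      have hz2 := mem_Icc.mp hz.2.1
      have hne : sh z.1 ≠ sh z.2 := sh_ne hz1.1 hz2.1 hz.2.2
      have hd0 : 0 < Nat.dist (sh z.1) (sh z.2) := Nat.dist_pos_of_ne hne
      have hdY : Nat.dist (sh z.1) (sh z.2) ≤ 2 ^ L := by
        have h3 := sh_le hz1.2
        have h4 := sh_le hz2.2
        unfold Nat.dist
        omega
      have hdY' : 2 * (Nat.dist (sh z.1) (sh z.2) : ℝ) ≤ (X : ℝ) ^ (1 / 16 : ℝ) := by
        have : (Nat.dist (sh z.1) (sh z.2) : ℝ) ≤ (2 : ℝ) ^ L := by exact_mod_cast hdY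
        linarith
      have hbound := hps (Nat.dist (sh z.1) (sh z.2)) 0 X hd0 hX hdY'
      have hcnt : ∑ q ∈ Q, #(Q.filter (fun q' => sh z.1 + q' = sh z.2 + q)) ≤
          #((Ioc 0 (0 + X)).filter
            (fun n => n.Prime ∧ (n + Nat.dist (sh z.1) (sh z.2)).Prime)) := by
        rcases lt_or_gt_of_ne hne with h | h
        · have e : Nat.dist (sh z.1) (sh z.2) = sh z.2 - sh z.1 := Nat.dist_eq_sub_of_le h.le
          rw [e]
          exact cnt_le' hQp (sh z.2) (sh z.1) h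
        · have e : Nat.dist (sh z.1) (sh z.2) = sh z.1 - sh z.2 :=
            Nat.dist_eq_sub_of_le_right h.le
          rw [e, cnt_swap']
          exact cnt_le' hQp (sh z.1) (sh z.2) h
      have hlog : 0 ≤ (X : ℝ) / Real.log X ^ 2 := by positivity
      calc ((∑ q ∈ Q, #(Q.filter (fun q' => sh z.1 + q' = sh z.2 + q)) : ℕ) : ℝ)
          ≤ (#((Ioc 0 (0 + X)).filter
            (fun n => n.Prime ∧ (n + Nat.dist (sh z.1) (sh z.2)).Prime)) : ℝ) := by
            exact_mod_cast hcnt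
        _ ≤ C * gg (2 * Nat.dist (sh z.1) (sh z.2)) * X / Real.log X ^ 2 := hbound
        _ = C * gg (2 * Nat.dist (sh z.1) (sh z.2)) * (X / Real.log X ^ 2) := by ring
        _ ≤ C * (3 / 2 * gg (Nat.dist (sh z.1) (sh z.2))) * (X / Real.log X ^ 2) := by
            apply mul_le_mul_of_nonneg_right _ hlog
            exact mul_le_mul_of_nonneg_left (gg_two_mul_le _ hd0) (by linarith)
        _ = 3 / 2 * C * gg (Nat.dist (sh z.1) (sh z.2)) * X / Real.log X ^ 2 := by ring
    have e7 : ∑ m ∈ I, (r m : ℝ) ^ 2 = ((∑ m ∈ I, (r m) ^ 2 : ℕ) : ℝ) := by push_cast; rfl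
    rw [e7, e1, e2, e3, e4]
    push_cast
    have e8 : (∑ z ∈ S.diag, ∑ q ∈ Q, (#(Q.filter (fun q' => sh z.1 + q' = sh z.2 + q)) : ℝ)) ≤
        (L : ℝ) * #Q := by exact_mod_cast e5
    have e9 : (∑ z ∈ S.offDiag, ∑ q ∈ Q,
        (#(Q.filter (fun q' => sh z.1 + q' = sh z.2 + q)) : ℝ)) ≤
        3 / 2 * C * (∑ z ∈ S.offDiag, gg (Nat.dist (sh z.1) (sh z.2))) * X /
          Real.log X ^ 2 := by
      have e10 : 3 / 2 * C * (∑ z ∈ S.offDiag, gg (Nat.dist (sh z.1) (sh z.2))) * X /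
            Real.log X ^ 2 =
          ∑ z ∈ S.offDiag, 3 / 2 * C * gg (Nat.dist (sh z.1) (sh z.2)) * X /
            Real.log X ^ 2 := by
        rw [Finset.mul_sum, Finset.sum_mul, Finset.sum_div]
      rw [e10]
      apply Finset.sum_le_sum
      intro z hz
      have := e6 z hz
      push_cast at this
      exact this
    linarith
  -- the support
  have hsupp : #I ≤ #(RL L X) := by
    apply Finset.card_le_card
    intro m hm
    obtain ⟨z, hz, rfl⟩ := mem_image.mp hm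
    rw [hPairs, mem_product] at hz
    obtain ⟨hz1, hz2⟩ := hz
    have h1 := hQl z.2 hz2
    have h2 := hQp z.2 hz2
    have h3 := mem_Icc.mp hz1
    have h4 : sh z.1 ≤ 2 ^ L := sh_le h3.2
    have h5 := sh_add z.1
    have h6 : 2 ^ z.1 ≤ 2 ^ L := Nat.pow_le_pow_right (by norm_num) h3.2
    have h7 : 0 < 2 ^ L := by positivity
    unfold RL
    rw [mem_filter, mem_Icc]
    refine ⟨⟨?_, ?_⟩, z.1, z.2 - 2 ^ z.1, by omega, h3.2, by omega, ?_, ?_⟩
    · simp only [hf]; omega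
    · simp only [hf]; omega
    · simp only [hf]; omega
    · have : 2 ^ z.1 + (z.2 - 2 ^ z.1) = z.2 := by omega
      rw [this]
      exact h2.1
  have hmom0 : 0 ≤ ∑ m ∈ I, (r m : ℝ) ^ 2 := Finset.sum_nonneg (fun _ _ => by positivity)
  rw [← hcardP']
  refine hCS.trans ?_
  have hsupp' : (#I : ℝ) ≤ #(RL L X) := by exact_mod_cast hsupp
  rw [hcardP']
  apply mul_le_mul hsupp' hmom hmom0 (Nat.cast_nonneg _)

end Pool.Agent.W2helper73.RX
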